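import Pool.Agent.Q83.Spray.Lin

/-!
# The semialgebraic form of Mazur's conjecture for varieties with dominating sprays
(flexible varieties)

`X ⊂ 𝔸ⁿ` is any affine variety over `ℚ`, given by polynomials `F₁, …, F_m`.  A spray on `X` is a
rational map `s : X × 𝔸ᴺ ⇢ X` over `ℚ` with `s(x, 0) = x`; examples are the rational maps
`(x, t) ↦ g(t) x`, where an algebraic group acts on `X` and `g` is a parametrized family in the
group with `g(0) = 1`, in particular the actions of the additive group `𝔾_a`.  For a finite family
of sprays, a real point `x` of `X` is dominated if the velocities at `x` of the sprays which are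
defined at `x` span the Zariski tangent space of `X` at `x` (the kernel of the Jacobi matrix of
`F₁, …, F_m`).  For example, on the flexible varieties of Arzhantsev, Flenner, Kaliman,
Kutzschebauch and Zaidenberg (flexible over `ℚ`) all smooth points are dominated by a finite family
of `𝔾_a`-actions.  `X` can be singular, and no assumption on the degrees or the dimension is made.

(1) The closure `C` of the set of the rational points in the set `X(ℝ)` of the real points is a
neighbourhood in `X(ℝ)` of each of its dominated points.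

(2) The closure of the set of the dominated rational points is semialgebraic over `ℚ`.

(3) If the closure of the set of the rational points which are not dominated is semialgebraic over
`ℚ` (for instance if there are only finitely many), then `C` is semialgebraic over `ℚ`.

(4) Mazur's original statement: each connected set of dominated real points is contained in `C`
or disjoint from `C`. So if all real points are dominated, then `C` is a union of connected
components of `X(ℝ)`.

(5) (2) for the closure of the set of the values of rational functions at the dominated rational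
points of finite products of such varieties and affine spaces.

(6) The case of linear unipotent groups, in explicit form: if the real points of `X` are mapped to
themselves by `exp(t A_a)`, where `A₁, …, A_k` are nilpotent rational `n × n`-matrices, then the
closure of the set of those rational points `x` of `X` for which the vectors `A₁ x, …, A_k x` span
the Zariski tangent space is semialgebraic over `ℚ`. (For instance for the level sets of the
invariants of representations of semisimple split groups.)
-/

set_option autoImplicit false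

namespace Pool.Agent.Results.MP_42de19_nt.FlexibleVarieties

open MvPolynomial Set Filter Topology Pool.Agent.Q83.SP Pool.Agent.TH729.SQ Matrix

/-- Semialgebraic sets defined over `ℚ`: the finite unions of sets
`{p = 0, q₁ > 0, …, q_k > 0}`, where `p` and the `qᵢ` are polynomials with rational
coefficients. -/
def Semialgebraic {n : ℕ} (S : Set (Fin n → ℝ)) : Prop :=
  ∃ (m : ℕ) (P : Fin m → MvPolynomial (Fin n) ℚ) (G : Fin m → Finset (MvPolynomial (Fin n) ℚ)),
    S = {x : Fin n → ℝ | ∃ j : Fin m, (aeval x (P j) : ℝ) = 0 ∧
      ∀ g ∈ G j, (0 : ℝ) < aeval x g}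

/-- The point of `ℝⁿ` given by a point of `ℚⁿ`. -/
def toReal {n : ℕ} (r : Fin n → ℚ) : Fin n → ℝ := fun i => (r i : ℝ)

/-- The rational points which are dominated by the family of sprays. -/
def dominatedPoints {n m k : ℕ} {F : Fin m → MvPolynomial (Fin n) ℚ} {N : Fin k → ℕ}
    (s : ∀ a, Spray F (N a)) : Set (Fin n → ℚ) :=
  {r | r ∈ ratPoints F ∧ Dominated s (toReal r)}

theorem result :
    (∀ (n m k : ℕ) (F : Fin m → MvPolynomial (Fin n) ℚ) (N : Fin k → ℕ)
      (s : ∀ a, Spray F (N a)),
      -- (1)
      (∀ x ∈ closure (toReal '' ratPoints F), Dominated s x →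
        closure (toReal '' ratPoints F) ∈ 𝓝[realPoints F] x) ∧
      -- (2)
      Semialgebraic (closure (toReal '' dominatedPoints s)) ∧
      -- (3)
      (Semialgebraic (closure (toReal '' (ratPoints F \ dominatedPoints s))) →
        Semialgebraic (closure (toReal '' ratPoints F))) ∧
      ((ratPoints F \ dominatedPoints s).Finite →
        Semialgebraic (closure (toReal '' ratPoints F))) ∧
      -- (4)
      (∀ I : Set (Fin n → ℝ), IsPreconnected I → I ⊆ realPoints F → (∀ x ∈ I, Dominated s x) →
        I ⊆ closure (toReal '' ratPoints F) ∨ Disjoint I (closure (toReal '' ratPoints F)))) ∧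
    -- (5)
    (∀ (J κ : Type) [Finite J] [Finite κ] (n : ℕ) (m k : J → ℕ)
      (F : ∀ j, Fin (m j) → MvPolynomial (Fin n) ℚ) (N : ∀ j, Fin (k j) → ℕ)
      (s : ∀ j a, Spray (F j) (N j a)) (l : ℕ) (p : Fin l → MvPolynomial ((J × Fin n) ⊕ κ) ℚ)
      (q : MvPolynomial ((J × Fin n) ⊕ κ) ℚ),
      Semialgebraic (closure {y : Fin l → ℝ | ∃ (x : J → Fin n → ℚ) (u : κ → ℚ),
        (∀ j, x j ∈ dominatedPoints (s j)) ∧ eval (Sum.elim (fun r => x r.1 r.2) u) q ≠ 0 ∧
        ∀ i, y i = ((eval (Sum.elim (fun r => x r.1 r.2) u) (p i) /
          eval (Sum.elim (fun r => x r.1 r.2) u) q : ℚ) : ℝ)})) ∧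
    -- (6)
    (∀ (n m k : ℕ) (F : Fin m → MvPolynomial (Fin n) ℚ) (A : Fin k → Matrix (Fin n) (Fin n) ℚ),
      (∀ a, A a ^ n = 0) →
      (∀ a, ∀ x ∈ realPoints F, ∀ t : ℝ, uflow (A a) t x ∈ realPoints F) →
      Semialgebraic (closure (toReal '' {r | r ∈ ratPoints F ∧ ∀ v : Fin n → ℝ,
        (∀ l, ∑ i, (aeval (toReal r) (pderiv i (F l)) : ℝ) * v i = 0) →
        ∃ w : Fin k → ℝ, v = ∑ a, w a • (((A a).map (Rat.castHom ℝ)) *ᵥ toReal r)}))) := by
  have hrl : ∀ {n : ℕ} (S : Set (Fin n → ℚ)), toReal '' S = rl S := by
    intro n S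
    ext x
    constructor
    · rintro ⟨r, hr, rfl⟩
      exact ⟨r, hr, rfl⟩
    · rintro ⟨r, hr, rfl⟩
      exact ⟨r, hr, rfl⟩
  have hmain : ∀ {n m k : ℕ} {F : Fin m → MvPolynomial (Fin n) ℚ} {N : Fin k → ℕ}
      (s : ∀ a, Spray F (N a)), Pool.Agent.H581R2.SA (closure (rl (dominatedPoints s))) := by
    intro n m k F N s
    exact main s
  have h3 : ∀ {n m k : ℕ} {F : Fin m → MvPolynomial (Fin n) ℚ} {N : Fin k → ℕ}
      (s : ∀ a, Spray F (N a)),
      Pool.Agent.H581R2.SA (closure (rl (ratPoints F \ dominatedPoints s))) →
        Pool.Agent.H581R2.SA (closure (rl (ratPoints F))) := by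
    intro n m k F N s h
    have e : rl (ratPoints F) = rl (dominatedPoints s) ∪ rl (ratPoints F \ dominatedPoints s) := by
      ext x
      constructor
      · rintro ⟨r, hr, rfl⟩
        by_cases hd : r ∈ dominatedPoints s
        · exact Or.inl ⟨r, hd, rfl⟩
        · exact Or.inr ⟨r, ⟨hr, hd⟩, rfl⟩
      · rintro (⟨r, hr, rfl⟩ | ⟨r, hr, rfl⟩)
        · exact ⟨r, hr.1, rfl⟩
        · exact ⟨r, hr.1, rfl⟩
    rw [e, closure_union]
    exact Pool.Agent.H581R2.SA.union (hmain s) h
  refine ⟨fun n m k F N s => ⟨?_, ?_, ?_, ?_, ?_⟩, ?_, ?_⟩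
  · intro x hx hd
    rw [hrl] at hx ⊢
    exact near_fam s hx hd
  · rw [hrl]
    exact SA.frozen (hmain s)
  · intro h
    rw [hrl] at h ⊢
    refine SA.frozen (h3 s ?_)
    obtain ⟨M, P, G, hS⟩ := h
    rw [hS]
    refine Pool.Agent.H581R2.SAP.exists_fin fun j => Pool.Agent.H581R2.SAP.and
      (Pool.Agent.H581R2.SAP.eq_zero (Pool.Agent.H581R2.PF.aeval _))
      (Pool.Agent.H581R2.SAP.forall_mem _ fun g _ =>
        Pool.Agent.H581R2.SAP.pos (Pool.Agent.H581R2.PF.aeval g))
  · intro h
    rw [hrl]
    refine SA.frozen (h3 s ?_)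
    have hfin : (rl (ratPoints F \ dominatedPoints s)).Finite := by
      rw [← hrl]
      exact h.image _
    rw [hfin.isClosed.closure_eq]
    have e : rl (ratPoints F \ dominatedPoints s) =
        {x : Fin n → ℝ | ∃ r ∈ ratPoints F \ dominatedPoints s, ∀ i, x i = (r i : ℝ)} := by
      ext x
      exact exists_congr fun r => and_congr_right fun _ => funext_iff
    rw [e]
    exact SA.finite_rat h
  · intro I hI hIX hId
    rw [hrl]
    have hLC : LC I (closure (rl (ratPoints F))) := by
      intro x hx
      by_cases hxC : x ∈ closure (rl (ratPoints F))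
      · have h1 := near_fam s hxC (hId x hx)
        filter_upwards [nhdsWithin_mono x hIX h1] with y hy
        exact ⟨fun _ => hxC, fun _ => hy⟩
      · filter_upwards [nhdsWithin_le_nhds (isClosed_closure.isOpen_compl.mem_nhds hxC)] with y hy
        exact ⟨fun h => absurd h hy, fun h => absurd h hxC⟩
    by_cases hne : ∃ x ∈ I, x ∈ closure (rl (ratPoints F))
    · obtain ⟨x, hx, hxC⟩ := hne
      exact Or.inl fun y hy => (hLC.constant hI (fun _ h => h) hx hy).1 hxC
    · push Not at hne
      exact Or.inr (Set.disjoint_left.2 hne)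
  · intro J κ _ _ n m k F N s l p q
    exact SA.frozen (values_main (fun j => dominatedPoints (s j)) (fun j => hmain (s j)) p q)
  · intro n m k F A _ h
    rw [hrl]
    exact SA.frozen (main_lin A h)

end Pool.Agent.Results.MP_42de19_nt.FlexibleVarieties
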