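import Pool.Agent.TH729.SQ.Comp
import Pool.Agent.Q10.MZ.Gen
import Pool.Agent.Q10.MZ.Inf

/-!
# Q1, the generic form of Mazur's original conjecture, and infima of Diophantine sets

Mazur's original conjecture said that for a smooth variety `X` over `ℚ` with Zariski dense rational
points the closure of `X(ℚ)` in `X(ℝ)` is a union of connected components of `X(ℝ)`; it is false
(Colliot-Thélène, Skorobogatov, Swinnerton-Dyer).  We prove that Q1 is equivalent to its generic
form: every integral variety `X` over `ℚ` contains a nonempty open subvariety `U` such that the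
closure of `U(ℚ)` in `U(ℝ)` is a union of connected components of `U(ℝ)`.  It suffices to know this
for the `X` with dense rational points whose real points lie on a sphere.

We also prove that Q1 is equivalent to the conjunction of a topological and an arithmetic
statement: the closures are semialgebraic with real coefficients, and the infima of Diophantine
sets of rational numbers are algebraic; and that Q1 can be read off from the distance functions.

Proof.  A semialgebraic set over `ℚ` contained in the real points of the integral variety `X` is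
relatively open outside of the zeros of the equations which do not vanish on `X`.  Conversely a
relatively clopen subset of a semialgebraic set over `ℚ` is semialgebraic over `ℚ` (`TH729/SQ`),
and one uses noetherian induction.  The distance function of a semialgebraic set with real
coefficients satisfies a polynomial equation with real coefficients.  If its values at rational
points are algebraic, it satisfies an equation with algebraic coefficients (linear algebra), and
then its graph is the closure of a finite union of relatively clopen subsets of semialgebraic sets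
over `ℚ`, given by the multiplicities of the roots (Rolle's theorem).
-/

set_option autoImplicit false

namespace Pool.Agent.Results.MP_42de19_nt.GenericMazur

open MvPolynomial

/-- Semialgebraic sets defined over `ℚ`: the finite unions of sets
`{p = 0, q₁ > 0, …, q_k > 0}`, where `p` and the `qᵢ` are polynomials with rational
coefficients. -/
def Semialgebraic {n : ℕ} (S : Set (Fin n → ℝ)) : Prop :=
  ∃ (m : ℕ) (P : Fin m → MvPolynomial (Fin n) ℚ) (G : Fin m → Finset (MvPolynomial (Fin n) ℚ)),
    S = {x : Fin n → ℝ | ∃ j : Fin m, (aeval x (P j) : ℝ) = 0 ∧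
      ∀ g ∈ G j, (0 : ℝ) < aeval x g}

/-- Semialgebraic sets (with real coefficients). -/
def RealSemialgebraic {n : ℕ} (S : Set (Fin n → ℝ)) : Prop :=
  ∃ (m : ℕ) (P : Fin m → MvPolynomial (Fin n) ℝ) (G : Fin m → Finset (MvPolynomial (Fin n) ℝ)),
    S = {x : Fin n → ℝ | ∃ j : Fin m, eval x (P j) = 0 ∧ ∀ g ∈ G j, 0 < eval x g}

/-- The closure in `ℝⁿ` of the set of the rational solutions of the system `F`. -/
def ratClosure {n : ℕ} (F : Finset (MvPolynomial (Fin n) ℚ)) : Set (Fin n → ℝ) :=
  closure {x : Fin n → ℝ | ∃ q : Fin n → ℚ, (∀ f ∈ F, eval q f = 0) ∧ ∀ i, x i = (q i : ℝ)}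

/-- The real points of the variety `U = X ∖ {h = 0}`, where `X` is given by the ideal `I`. -/
def realPoints {n : ℕ} (I : Ideal (MvPolynomial (Fin n) ℚ)) (h : MvPolynomial (Fin n) ℚ) :
    Set (Fin n → ℝ) :=
  {x | (∀ f ∈ I, (aeval x f : ℝ) = 0) ∧ (aeval x h : ℝ) ≠ 0}

/-- The rational points of the variety `U = X ∖ {h = 0}`, as real points. -/
def ratPoints {n : ℕ} (I : Ideal (MvPolynomial (Fin n) ℚ)) (h : MvPolynomial (Fin n) ℚ) :
    Set (Fin n → ℝ) :=
  {x | ∃ q : Fin n → ℚ, (∀ f ∈ I, eval q f = 0) ∧ eval q h ≠ 0 ∧ ∀ i, x i = (q i : ℝ)}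

/-- Mazur's original property for `U = X ∖ {h = 0}`: the closure of `U(ℚ)` in `U(ℝ)` is a union of
connected components of `U(ℝ)`. -/
def MazurProperty {n : ℕ} (I : Ideal (MvPolynomial (Fin n) ℚ)) (h : MvPolynomial (Fin n) ℚ) :
    Prop :=
  ∀ x ∈ realPoints I h, x ∈ closure (ratPoints I h) →
    connectedComponentIn (realPoints I h) x ⊆ closure (ratPoints I h)

/-- The rational points of `X` are Zariski dense. -/
def DenseRational {n : ℕ} (I : Ideal (MvPolynomial (Fin n) ℚ)) : Prop :=
  ∀ g : MvPolynomial (Fin n) ℚ, (∀ q : Fin n → ℚ, (∀ f ∈ I, eval q f = 0) → eval q g = 0) → g ∈ I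

theorem sa_iff {n : ℕ} {S : Set (Fin n → ℝ)} : Semialgebraic S ↔ Pool.Agent.H581R2.SA S :=
  Pool.Agent.Q10.MZ.semialgebraic_iff

theorem ratClosure_eq {n : ℕ} (F : Finset (MvPolynomial (Fin n) ℚ)) :
    ratClosure F = closure (Pool.Agent.Q10.MZ.rl (Pool.Agent.Q10.MZ.Zq F)) := by
  unfold ratClosure
  congr 1
  ext x
  constructor
  · rintro ⟨q, hq, hx⟩
    exact ⟨q, hq, funext hx⟩
  · rintro ⟨q, hq, rfl⟩
    exact ⟨q, hq, fun i => rfl⟩

/-- a point of `U(ℝ)` in the closure of `X(ℚ)` lies in the closure of `U(ℚ)` -/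
theorem closure_rat {n : ℕ} {I : Ideal (MvPolynomial (Fin n) ℚ)} {h : MvPolynomial (Fin n) ℚ}
    {x : Fin n → ℝ} (hx : (aeval x h : ℝ) ≠ 0) :
    x ∈ closure (ratPoints I h) ↔ x ∈ closure (Pool.Agent.Q10.MZ.rl (Pool.Agent.Q10.MZ.Zi I)) := by
  constructor
  · intro h1
    refine closure_mono ?_ h1
    rintro y ⟨q, hq, -, hy⟩
    exact ⟨q, hq, funext hy⟩
  · intro h1
    rw [mem_closure_iff_nhds] at h1 ⊢
    intro t ht
    have h2 : ∀ᶠ y in nhds x, (aeval y h : ℝ) ≠ 0 :=
      (Pool.Agent.TH729.SQ.continuous_aeval h).continuousAt.eventually_ne hx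
    obtain ⟨z, ⟨hz1, hz3⟩, r, hr, rfl⟩ := h1 _ (Filter.inter_mem ht h2)
    refine ⟨_, hz1, r, hr, fun h0 => hz3 ?_, fun i => rfl⟩
    rw [Pool.Agent.Q10.MZ.aeval_cast, h0, Rat.cast_zero]

theorem sa_real {n : ℕ} (I : Ideal (MvPolynomial (Fin n) ℚ)) (h : MvPolynomial (Fin n) ℚ) :
    Pool.Agent.H581R2.SA (realPoints I h) :=
  (Pool.Agent.Q10.MZ.SA_Zr I).inter
    (Pool.Agent.H581R2.SAP.eq_zero (Pool.Agent.H581R2.PF.aeval h)).not

/-- Mazur's property is relative openness of the closure -/
theorem gen_iff {n : ℕ} (I : Ideal (MvPolynomial (Fin n) ℚ)) :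
    (∃ h ∉ I, MazurProperty I h) ↔ Pool.Agent.Q10.MZ.GenOpen I := by
  constructor
  · rintro ⟨h, hh, hM⟩
    refine ⟨h, hh, fun x hx hx0 => ?_⟩
    have hxV : x ∈ realPoints I h :=
      ⟨closure_minimal (Pool.Agent.Q10.MZ.rl_Zi_subset I) (Pool.Agent.Q10.MZ.isClosed_Zr I) hx,
        hx0⟩
    have hM' := hM x hxV ((closure_rat hx0).2 hx)
    have hfin : Finite (ConnectedComponents (realPoints I h)) :=
      Pool.Agent.TH729.SQ.sa_comp (sa_real I h)
    have hopen : IsOpen (connectedComponent (⟨x, hxV⟩ : realPoints I h)) := by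
      rw [← connectedComponents_preimage_singleton]
      exact (isOpen_discrete _).preimage ConnectedComponents.continuous_coe
    obtain ⟨O, hO, hOe⟩ := isOpen_induced_iff.1 hopen
    have hxO : x ∈ O := by
      have h1 : (⟨x, hxV⟩ : realPoints I h) ∈ Subtype.val ⁻¹' O := by
        rw [hOe]
        exact mem_connectedComponent
      exact h1
    have h2 : ∀ᶠ y in nhds x, (aeval y h : ℝ) ≠ 0 :=
      (Pool.Agent.TH729.SQ.continuous_aeval h).continuousAt.eventually_ne hx0
    filter_upwards [hO.mem_nhds hxO, h2] with y hyO hy0 hyI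
    have hyV : y ∈ realPoints I h := ⟨hyI, hy0⟩
    have h3 : y ∈ connectedComponentIn (realPoints I h) x := by
      rw [connectedComponentIn_eq_image hxV]
      refine ⟨⟨y, hyV⟩, ?_, rfl⟩
      rw [← hOe]
      exact hyO
    exact (closure_rat hy0).1 (hM' h3)
  · rintro ⟨h, hh, hO⟩
    refine ⟨h, hh, fun x hx hxc y hy => ?_⟩
    have hLC : Pool.Agent.TH729.SQ.LC (realPoints I h)
        (closure (Pool.Agent.Q10.MZ.rl (Pool.Agent.Q10.MZ.Zi I))) := by
      intro z hz
      by_cases hzC : z ∈ closure (Pool.Agent.Q10.MZ.rl (Pool.Agent.Q10.MZ.Zi I))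
      · filter_upwards [nhdsWithin_le_nhds (hO z hzC hz.2), self_mem_nhdsWithin] with w hw hwV
        exact ⟨fun _ => hzC, fun _ => hw hwV.1⟩
      · filter_upwards [nhdsWithin_le_nhds (isClosed_closure.isOpen_compl.mem_nhds hzC)] with w hw
        exact ⟨fun h => absurd h hw, fun h => absurd h hzC⟩
    have hsub := connectedComponentIn_subset (realPoints I h) x
    have h1 := hLC.constant isPreconnected_connectedComponentIn hsub
      (mem_connectedComponentIn hx) hy
    exact (closure_rat (hsub hy).2).2 (h1.1 ((closure_rat hx.2).1 hxc))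

/-- **Q1 is equivalent to the generic form of Mazur's original conjecture, and to:
the closures are semialgebraic with real coefficients and the infima of Diophantine sets are
algebraic.** -/
theorem result :
    [ -- (1) Q1
      ∀ (n : ℕ) (F : Finset (MvPolynomial (Fin n) ℚ)), Semialgebraic (ratClosure F),
      -- (2) every integral variety has a nonempty open subvariety with Mazur's property
      ∀ (n : ℕ) (I : Ideal (MvPolynomial (Fin n) ℚ)), I.IsPrime → ∃ h ∉ I, MazurProperty I h,
      -- (3) the same for varieties with dense rational points and real points on a sphere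
      ∀ (n r : ℕ) (I : Ideal (MvPolynomial (Fin n) ℚ)), I.IsPrime → DenseRational I →
        (∀ x : Fin n → ℝ, (∀ f ∈ I, (aeval x f : ℝ) = 0) → ∑ i, x i ^ 2 = (r : ℝ) ^ 2) →
        ∃ h ∉ I, MazurProperty I h,
      -- (4) real semialgebraicity, and infima of Diophantine sets are algebraic
      (∀ (n : ℕ) (F : Finset (MvPolynomial (Fin n) ℚ)), RealSemialgebraic (ratClosure F)) ∧
        ∀ (m : ℕ) (F : Finset (MvPolynomial (Option (Fin m)) ℚ)) (a : ℝ),
          IsGLB {t : ℝ | ∃ (s : ℚ) (y : Fin m → ℚ),
            (∀ f ∈ F, eval (fun o : Option (Fin m) => o.elim s y) f = 0) ∧ t = s} a →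
          IsAlgebraic ℚ a,
      -- (5) the distances from the rational points satisfy a polynomial equation with real
      -- coefficients and are algebraic at rational points
      ∀ (n : ℕ) (F : Finset (MvPolynomial (Fin n) ℚ)), (ratClosure F).Nonempty →
        (∃ P : MvPolynomial (Option (Fin n)) ℝ, P ≠ 0 ∧ ∀ x : Fin n → ℝ,
          eval (fun o : Option (Fin n) => o.elim (Metric.infDist x (ratClosure F)) x) P = 0) ∧
        ∀ r : Fin n → ℚ, IsAlgebraic ℚ (Metric.infDist (fun i => (r i : ℝ)) (ratClosure F))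
      ].TFAE := by
  have hQ1 : (∀ (n : ℕ) (F : Finset (MvPolynomial (Fin n) ℚ)), Semialgebraic (ratClosure F)) →
      ∀ (n : ℕ) (F : Finset (MvPolynomial (Fin n) ℚ)),
        Pool.Agent.H581R2.SA (closure (Pool.Agent.Q10.MZ.rl (Pool.Agent.Q10.MZ.Zq F))) := by
    intro h n F
    have := h n F
    rwa [sa_iff, ratClosure_eq] at this
  tfae_have 1 → 2 := by
    intro h n I hI
    rw [gen_iff]
    refine Pool.Agent.Q10.MZ.gen_of_SA I ?_
    obtain ⟨F, hF⟩ := (inferInstance : IsNoetherian _ _).noetherian I
    have h1 := hQ1 h n F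
    rw [← Pool.Agent.Q10.MZ.Zi_span] at h1
    have h2 : Ideal.span (F : Set (MvPolynomial (Fin n) ℚ)) = I := hF
    rwa [h2] at h1
  tfae_have 2 → 3 := fun h n r I hI _ _ => h n I hI
  tfae_have 3 → 1 := by
    intro h n F
    rw [sa_iff, ratClosure_eq]
    refine Pool.Agent.Q10.MZ.global_of_sphere ?_ n F
    rintro n T - ⟨R, hR⟩ a
    refine ⟨_, ?_, Filter.Eventually.of_forall fun x => Iff.rfl⟩
    rw [← Pool.Agent.Q10.MZ.Zi_span]
    refine Pool.Agent.Q10.MZ.SA_of_gen _ fun J hJ hJp => ?_
    by_cases hd : DenseRational J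
    · rw [← gen_iff]
      refine h n R J hJp hd fun x hx => hR x fun q hq => hx q (hJ (Ideal.subset_span hq))
    · unfold DenseRational at hd
      push Not at hd
      obtain ⟨g, hg, hgJ⟩ := hd
      refine ⟨g, hgJ, fun x hx hx0 => ?_⟩
      exfalso
      apply hx0
      have h1 : closure (Pool.Agent.Q10.MZ.rl (Pool.Agent.Q10.MZ.Zi J)) ⊆
          {x : Fin n → ℝ | (aeval x g : ℝ) = 0} := by
        refine closure_minimal ?_ (isClosed_eq (Pool.Agent.TH729.SQ.continuous_aeval g) continuous_const)
        rintro _ ⟨q, hq, rfl⟩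
        change (aeval (fun i => (q i : ℝ)) g : ℝ) = 0
        rw [Pool.Agent.Q10.MZ.aeval_cast, hg q hq, Rat.cast_zero]
      exact h1 hx
  tfae_have 1 → 4 := by
    classical
    intro h
    refine ⟨fun n F => ?_, Pool.Agent.Q10.MZ.inf_of_Q1 (hQ1 h)⟩
    obtain ⟨m, P, G, hPG⟩ := h n F
    refine ⟨m, fun j => map (algebraMap ℚ ℝ) (P j),
      fun j => (G j).image (map (algebraMap ℚ ℝ)), ?_⟩
    rw [hPG]
    ext x
    refine exists_congr fun j => ?_
    simp only [Finset.mem_image, forall_exists_index, and_imp, forall_apply_eq_imp_iff₂,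
      eval_map, aeval_def]
  tfae_have 4 → 5 := by
    rintro ⟨hT, hA⟩ n F hne
    refine ⟨Pool.Agent.Q10.MZ.dist_poly hne (hT n F), fun r => ?_⟩
    rw [ratClosure_eq, Metric.infDist_closure]
    refine Pool.Agent.Q10.MZ.alg_of_inf hA F ?_ r
    rw [ratClosure_eq, closure_nonempty_iff] at hne
    obtain ⟨_, c, hc, -⟩ := hne
    exact ⟨c, hc⟩
  tfae_have 5 → 1 := by
    intro h n F
    rw [sa_iff]
    by_cases hne : (ratClosure F).Nonempty
    · obtain ⟨⟨P, hP, hPf⟩, hr⟩ := h n F hne
      exact Pool.Agent.Q10.MZ.SA_of_dist isClosed_closure hne hP hPf hr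
    · rw [Set.not_nonempty_iff_eq_empty] at hne
      rw [hne]
      exact Pool.Agent.H581R2.SA.empty
  tfae_finish

end Pool.Agent.Results.MP_42de19_nt.GenericMazur
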