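import Pool.Agent.Q10.MZ.Cpt
import Pool.Agent.Q10.MZ.NF

/-!
# The semialgebraic Mazur conjecture: a weakest and a strongest form

Q1 asks whether the closure in `ℝⁿ` of the rational points of every system of polynomial equations
over `ℚ` is semialgebraic over `ℚ`.  We prove that Q1 is equivalent to

* its local form for quartic hypersurfaces (also: intersections of quadrics) whose real points lie
  on a sphere: near every point of `ℝⁿ` the closure of the rational points coincides with a
  semialgebraic set over `ℚ`;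
* its analogue for all number fields `K`, all projections of sets of `K`-rational points, for
  finitely many (for example all) archimedean places simultaneously and with semialgebraic side
  conditions.

Proof.  `Q10/MZ/Quad`: a system of equations is replaced by a system of quadrics for the point
together with its monomials, and the quadrics by the sum of their squares.
`Q10/MZ/Cpt`: the rational points in a cube are the projections of rational points on a sphere (a
sum of four squares); the points with large coordinates are moved into the cube by inverting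
coordinates; local semialgebraicity is globalised by compactness.  `Q10/MZ/Dio`: semialgebraic
conditions on rational points are Diophantine.  `Q10/MZ/NF`: restriction of scalars; the places are
given by real linear maps with algebraic coefficients, which are eliminated by the theorem of
Tarski and Seidenberg.
-/

set_option autoImplicit false

namespace Pool.Agent.Results.MP_42de19_nt.QuarticsSuffice

open MvPolynomial

/-- Semialgebraic sets defined over `ℚ`: the finite unions of sets
`{p = 0, q₁ > 0, …, q_k > 0}`, where `p` and the `qᵢ` are polynomials with rational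
coefficients. -/
def Semialgebraic {ι : Type} (S : Set (ι → ℝ)) : Prop :=
  ∃ (m : ℕ) (P : Fin m → MvPolynomial ι ℚ) (G : Fin m → Finset (MvPolynomial ι ℚ)),
    S = {x : ι → ℝ | ∃ j : Fin m, (aeval x (P j) : ℝ) = 0 ∧
      ∀ g ∈ G j, (0 : ℝ) < aeval x g}

/-- Near every point `a`, the set `C` coincides with a semialgebraic set over `ℚ`. -/
def LocallySemialgebraic {n : ℕ} (C : Set (Fin n → ℝ)) : Prop :=
  ∀ a : Fin n → ℝ, ∃ S : Set (Fin n → ℝ), Semialgebraic S ∧ ∀ᶠ x in nhds a, (x ∈ C ↔ x ∈ S)

/-- The closure in `ℝⁿ` of the set of the rational solutions of the system `F`. -/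
def ratClosure {n : ℕ} (F : Finset (MvPolynomial (Fin n) ℚ)) : Set (Fin n → ℝ) :=
  closure {x : Fin n → ℝ | ∃ q : Fin n → ℚ, (∀ f ∈ F, eval q f = 0) ∧ ∀ i, x i = (q i : ℝ)}

theorem sa_iff {ι : Type} {S : Set (ι → ℝ)} : Semialgebraic S ↔ Pool.Agent.H581R2.SA S :=
  Pool.Agent.Q10.MZ.semialgebraic_iff

theorem ratClosure_eq {n : ℕ} (F : Finset (MvPolynomial (Fin n) ℚ)) :
    ratClosure F = closure (Pool.Agent.Q10.MZ.rl (Pool.Agent.Q10.MZ.Zq F)) := by
  unfold ratClosure
  congr 1
  ext x
  constructor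
  · rintro ⟨q, hq, hx⟩
    exact ⟨q, hq, funext hx⟩
  · rintro ⟨q, hq, rfl⟩
    exact ⟨q, hq, fun i => rfl⟩

theorem loc_iff {n : ℕ} {C : Set (Fin n → ℝ)} :
    LocallySemialgebraic C ↔ ∀ a, Pool.Agent.Q10.MZ.SAat C a := by
  refine forall_congr' fun a => exists_congr fun S => ?_
  rw [sa_iff]

/-- the real and the imaginary part of an embedding -/
noncomputable def part {K : Type} [Field K] [NumberField K] (σ : K →+* ℂ) (b : Bool) :
    K →ₗ[ℚ] ℝ where
  toFun x := if b then (σ x).re else (σ x).im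
  map_add' x y := by
    cases b <;> simp
  map_smul' c x := by
    cases b <;> simp [Rat.smul_def]

theorem part_alg {K : Type} [Field K] [NumberField K] (σ : K →+* ℂ) (b : Bool) (x : K) :
    IsAlgebraic ℚ (part σ b x) := by
  have h1 : IsAlgebraic ℚ (σ x) := by
    have h := Algebra.IsAlgebraic.isAlgebraic (R := ℚ) x
    obtain ⟨p, hp, hp2⟩ := h
    refine ⟨p, hp, ?_⟩
    have hc : σ.comp (algebraMap ℚ K) = algebraMap ℚ ℂ := Subsingleton.elim _ _
    rw [Polynomial.aeval_def, ← hc, ← Polynomial.hom_eval₂, ← Polynomial.aeval_def, hp2, map_zero]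
  have h2 : IsAlgebraic ℚ ((starRingEnd ℂ) (σ x)) := by
    obtain ⟨p, hp, hp2⟩ := h1
    refine ⟨p, hp, ?_⟩
    have hc : (starRingEnd ℂ).comp (algebraMap ℚ ℂ) = algebraMap ℚ ℂ := Subsingleton.elim _ _
    rw [Polynomial.aeval_def, ← hc, ← Polynomial.hom_eval₂, ← Polynomial.aeval_def, hp2, map_zero]
  have hI : IsAlgebraic ℚ Complex.I := by
    refine ⟨Polynomial.X ^ 2 + 1, ?_, by simp⟩
    exact (Polynomial.monic_X_pow_add_C (1 : ℚ) two_ne_zero).ne_zero
  have key : IsAlgebraic ℚ ((part σ b x : ℝ) : ℂ) := by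
    have h3 : IsAlgebraic ℚ ((2 : ℂ)⁻¹) := by
      have := isAlgebraic_algebraMap (R := ℚ) (A := ℂ) (2⁻¹ : ℚ)
      simpa using this
    cases b
    · have h4 : ((part σ false x : ℝ) : ℂ) = (σ x - (starRingEnd ℂ) (σ x)) * (2 : ℂ)⁻¹ *
          (- Complex.I) := by
        have : (part σ false x : ℝ) = (σ x).im := rfl
        rw [this, Complex.sub_conj]
        push_cast
        have h5 := Complex.I_mul_I
        linear_combination ((σ x).im : ℂ) * h5
      rw [h4]
      exact ((h1.sub h2).mul h3).mul hI.neg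
    · have h4 : ((part σ true x : ℝ) : ℂ) = (σ x + (starRingEnd ℂ) (σ x)) * (2 : ℂ)⁻¹ := by
        have : (part σ true x : ℝ) = (σ x).re := rfl
        rw [this, Complex.add_conj]
        push_cast
        ring
      rw [h4]
      exact (h1.add h2).mul h3
  obtain ⟨p, hp, hp2⟩ := key
  refine ⟨p, hp, ?_⟩
  have h5 : (Polynomial.aeval ((part σ b x : ℝ) : ℂ) p : ℂ) =
      ((Polynomial.aeval (part σ b x : ℝ) p : ℝ) : ℂ) := by
    rw [Polynomial.aeval_def, Polynomial.aeval_def]
    have hc : (algebraMap ℚ ℂ) = Complex.ofRealHom.comp (algebraMap ℚ ℝ) :=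
      Subsingleton.elim _ _
    rw [hc]
    exact (Polynomial.hom_eval₂ p (algebraMap ℚ ℝ) Complex.ofRealHom _).symm
  rw [h5] at hp2
  exact_mod_cast hp2

/-- **Q1 is equivalent to its local form for quartic hypersurfaces on spheres, and to its form for
all Diophantine sets over all number fields at all archimedean places simultaneously.** -/
theorem result :
    [ -- (1) Q1
      ∀ (n : ℕ) (F : Finset (MvPolynomial (Fin n) ℚ)), Semialgebraic (ratClosure F),
    -- (2) the local form for nonnegative quartics with all real zeros on a sphere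
      ∀ (n r : ℕ) (f : MvPolynomial (Fin n) ℚ), f.totalDegree ≤ 4 →
        (∀ x : Fin n → ℝ, 0 ≤ (aeval x f : ℝ)) →
        (∀ x : Fin n → ℝ, (aeval x f : ℝ) = 0 → ∑ i, x i ^ 2 = (r : ℝ) ^ 2) →
        LocallySemialgebraic (ratClosure {f}),
    -- (3) the local form for intersections of quadrics on a sphere
      ∀ (n r : ℕ) (T : Finset (MvPolynomial (Fin n) ℚ)), (∀ q ∈ T, q.totalDegree ≤ 2) →
        (∀ x : Fin n → ℝ, (∀ q ∈ T, (aeval x q : ℝ) = 0) → ∑ i, x i ^ 2 = (r : ℝ) ^ 2) →
        LocallySemialgebraic (ratClosure T),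
    -- (4) number fields `K` and linear maps `K → ℝ` with algebraic values; the set of the
    -- `x ∈ Kⁿ` for which `F(x, y) = 0` has a solution `y ∈ Kᵐ`; a semialgebraic condition `A`
      ∀ (K : Type) [Field K] [NumberField K] (n m r : ℕ)
        (F : Finset (MvPolynomial (Fin n ⊕ Fin m) K)) (l : Fin r → K →ₗ[ℚ] ℝ),
        (∀ j x, IsAlgebraic ℚ (l j x)) → ∀ A : Set (Fin n × Fin r → ℝ), Semialgebraic A →
        Semialgebraic (closure {z : Fin n × Fin r → ℝ | (∃ x : Fin n → K,
          (∃ y : Fin m → K, ∀ f ∈ F, eval (Sum.elim x y) f = 0) ∧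
            ∀ i j, z (i, j) = l j (x i)) ∧ z ∈ A}),
    -- (5) number fields `K` and embeddings `K → ℂ`; `ℂ` is identified with `ℝ²`
      ∀ (K : Type) [Field K] [NumberField K] (n m r : ℕ)
        (F : Finset (MvPolynomial (Fin n ⊕ Fin m) K)) (σ : Fin r → (K →+* ℂ))
        (A : Set (Fin n × Fin r × Bool → ℝ)), Semialgebraic A →
        Semialgebraic (closure {z : Fin n × Fin r × Bool → ℝ | (∃ x : Fin n → K,
          (∃ y : Fin m → K, ∀ f ∈ F, eval (Sum.elim x y) f = 0) ∧
            ∀ i j, z (i, j, true) = (σ j (x i)).re ∧ z (i, j, false) = (σ j (x i)).im) ∧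
              z ∈ A})].TFAE := by
  tfae_have 1 → 2 := by
    intro h n r f _ _ _ a
    exact ⟨_, h n {f}, Filter.Eventually.of_forall fun x => Iff.rfl⟩
  tfae_have 2 → 3 := by
    intro h n r T hT hr
    rw [ratClosure_eq, loc_iff]
    refine Pool.Agent.Q10.MZ.quadrics_of_quartics' ?_ n T hT ⟨r, hr⟩
    rintro n f hf hpos ⟨R, hR⟩
    have h1 := h n R f hf hpos hR
    rw [ratClosure_eq, loc_iff] at h1
    have h2 : Pool.Agent.Q10.MZ.Zq {f} = {x | eval x f = 0} := by
      ext x
      simp [Pool.Agent.Q10.MZ.Zq]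
    rwa [h2] at h1
  have h31 : (∀ (n r : ℕ) (T : Finset (MvPolynomial (Fin n) ℚ)), (∀ q ∈ T, q.totalDegree ≤ 2) →
        (∀ x : Fin n → ℝ, (∀ q ∈ T, (aeval x q : ℝ) = 0) → ∑ i, x i ^ 2 = (r : ℝ) ^ 2) →
        LocallySemialgebraic (ratClosure T)) → ∀ (n : ℕ) (F : Finset (MvPolynomial (Fin n) ℚ)),
        Pool.Agent.H581R2.SA (closure (Pool.Agent.Q10.MZ.rl (Pool.Agent.Q10.MZ.Zq F))) := by
    intro h
    refine Pool.Agent.Q10.MZ.global_of_sphere ?_
    rintro n T hT ⟨R, hR⟩
    have h1 := h n R T hT hR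
    rwa [ratClosure_eq, loc_iff] at h1
  tfae_have 3 → 4 := by
    intro h K _ _ n m r F l hl A hA
    rw [sa_iff] at hA ⊢
    have h1 := Pool.Agent.Q10.MZ.closure_nf (h31 h) K l hl F hA
    have h2 : {z : Fin n × Fin r → ℝ | (∃ x : Fin n → K,
          (∃ y : Fin m → K, ∀ f ∈ F, eval (Sum.elim x y) f = 0) ∧
            ∀ i j, z (i, j) = l j (x i)) ∧ z ∈ A} =
        {z : Fin n × Fin r → ℝ | (∃ x : Fin n → K,
          (∃ y : Fin m → K, ∀ f ∈ F, eval (Sum.elim x y) f = 0) ∧
            ∀ p, z p = l p.2 (x p.1)) ∧ z ∈ A} := by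
      ext z
      simp only [Prod.forall]
    rwa [h2]
  tfae_have 3 → 5 := by
    intro h K _ _ n m r F σ A hA
    rw [sa_iff] at hA ⊢
    have h1 := Pool.Agent.Q10.MZ.closure_nf (h31 h) K (J := Fin r × Bool)
      (fun j => part (σ j.1) j.2) (fun j x => part_alg _ _ _) F hA
    have h2 : {z : Fin n × Fin r × Bool → ℝ | (∃ x : Fin n → K,
          (∃ y : Fin m → K, ∀ f ∈ F, eval (Sum.elim x y) f = 0) ∧
            ∀ i j, z (i, j, true) = (σ j (x i)).re ∧ z (i, j, false) = (σ j (x i)).im) ∧
              z ∈ A} =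
        {z : Fin n × Fin r × Bool → ℝ | (∃ x : Fin n → K,
          (∃ y : Fin m → K, ∀ f ∈ F, eval (Sum.elim x y) f = 0) ∧
            ∀ p, z p = part (σ p.2.1) p.2.2 (x p.1)) ∧ z ∈ A} := by
      ext z
      refine and_congr_left fun _ => exists_congr fun x => and_congr_right fun _ => ?_
      constructor
      · rintro hz ⟨i, j, b⟩
        cases b
        · exact (hz i j).2
        · exact (hz i j).1
      · intro hz i j
        exact ⟨hz (i, j, true), hz (i, j, false)⟩
    rwa [h2]
  tfae_have 4 → 1 := by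
    intro h n F
    have h1 := h ℚ n 0 1 (F.map ⟨rename Sum.inl, rename_injective _ Sum.inl_injective⟩)
      (fun _ => (Algebra.linearMap ℚ ℝ)) (fun _ x => isAlgebraic_algebraMap x) Set.univ
      (sa_iff.2 Pool.Agent.H581R2.SA.univ)
    rw [sa_iff] at h1 ⊢
    have h2 := Pool.Agent.H581R2.SA.preimage (φ := fun (x : Fin n → ℝ) (p : Fin n × Fin 1) =>
      x p.1) h1 (fun p => Pool.Agent.H581R2.PF.coord _)
    refine (congrArg Pool.Agent.H581R2.SA ?_).mp h2
    rw [ratClosure_eq]
    ext x
    rw [Set.mem_preimage]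
    rw [Pool.Agent.Q10.MZ.closure_embed (φ := fun (x : Fin n → ℝ) (p : Fin n × Fin 1) => x p.1)
      (π := fun z i => z (i, 0)) (continuous_pi fun p => continuous_apply _)
      (continuous_pi fun i => continuous_apply _) (fun x => rfl)
      (Pool.Agent.Q10.MZ.rl (Pool.Agent.Q10.MZ.Zq F)) x]
    have h3 : {z : Fin n × Fin 1 → ℝ | (∃ x : Fin n → ℚ,
        (∃ y : Fin 0 → ℚ, ∀ f ∈ F.map ⟨rename Sum.inl, rename_injective _ Sum.inl_injective⟩,
          eval (Sum.elim x y) f = 0) ∧
          ∀ i j, z (i, j) = (fun _ => Algebra.linearMap ℚ ℝ) j (x i)) ∧ z ∈ Set.univ} =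
        (fun (x : Fin n → ℝ) (p : Fin n × Fin 1) => x p.1) ''
          Pool.Agent.Q10.MZ.rl (Pool.Agent.Q10.MZ.Zq F) := by
      ext z
      constructor
      · rintro ⟨⟨x, ⟨y, hy⟩, hz⟩, -⟩
        refine ⟨fun i => (x i : ℝ), ⟨x, fun f hf => ?_, rfl⟩, ?_⟩
        · have h4 := hy _ (Finset.mem_map_of_mem _ hf)
          change eval (Sum.elim x y) (rename Sum.inl f) = 0 at h4
          rw [eval_rename] at h4
          exact h4
        · funext p
          exact (hz p.1 p.2).symm
      · rintro ⟨_, ⟨x, hx, rfl⟩, rfl⟩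
        refine ⟨⟨x, ⟨Fin.elim0, fun f hf => ?_⟩, fun i j => rfl⟩, trivial⟩
        obtain ⟨g, hg, rfl⟩ := Finset.mem_map.1 hf
        change eval (Sum.elim x Fin.elim0) (rename Sum.inl g) = 0
        rw [eval_rename]
        exact hx g hg
    rw [h3]
  tfae_have 5 → 1 := by
    intro h n F
    have h1 := h ℚ n 0 1 (F.map ⟨rename Sum.inl, rename_injective _ Sum.inl_injective⟩)
      (fun _ => algebraMap ℚ ℂ) Set.univ (sa_iff.2 Pool.Agent.H581R2.SA.univ)
    rw [sa_iff] at h1 ⊢
    have h2 := Pool.Agent.H581R2.SA.preimage (φ := fun (x : Fin n → ℝ)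
      (p : Fin n × Fin 1 × Bool) => if p.2.2 then x p.1 else 0) h1 (fun p => by
        by_cases hp : p.2.2 = true
        · simp only [hp, if_true]
          exact Pool.Agent.H581R2.PF.coord _
        · simp only [hp]
          exact Pool.Agent.H581R2.PF.zero)
    refine (congrArg Pool.Agent.H581R2.SA ?_).mp h2
    rw [ratClosure_eq]
    ext x
    rw [Set.mem_preimage]
    rw [Pool.Agent.Q10.MZ.closure_embed (φ := fun (x : Fin n → ℝ) (p : Fin n × Fin 1 × Bool) =>
      if p.2.2 then x p.1 else 0)
      (π := fun z i => z (i, 0, true)) (continuous_pi fun p => by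
        by_cases hp : p.2.2 = true
        · simp only [hp, if_true]
          exact continuous_apply _
        · simp only [hp]
          exact continuous_const)
      (continuous_pi fun i => continuous_apply _) (fun x => rfl)
      (Pool.Agent.Q10.MZ.rl (Pool.Agent.Q10.MZ.Zq F)) x]
    have h3 : {z : Fin n × Fin 1 × Bool → ℝ | (∃ x : Fin n → ℚ,
        (∃ y : Fin 0 → ℚ, ∀ f ∈ F.map ⟨rename Sum.inl, rename_injective _ Sum.inl_injective⟩,
          eval (Sum.elim x y) f = 0) ∧
          ∀ i j, z (i, j, true) = ((fun _ => algebraMap ℚ ℂ) j (x i)).re ∧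
            z (i, j, false) = ((fun _ => algebraMap ℚ ℂ) j (x i)).im) ∧ z ∈ Set.univ} =
        (fun (x : Fin n → ℝ) (p : Fin n × Fin 1 × Bool) => if p.2.2 then x p.1 else 0) ''
          Pool.Agent.Q10.MZ.rl (Pool.Agent.Q10.MZ.Zq F) := by
      ext z
      constructor
      · rintro ⟨⟨x, ⟨y, hy⟩, hz⟩, -⟩
        refine ⟨fun i => (x i : ℝ), ⟨x, fun f hf => ?_, rfl⟩, ?_⟩
        · have h4 := hy _ (Finset.mem_map_of_mem _ hf)
          change eval (Sum.elim x y) (rename Sum.inl f) = 0 at h4
          rw [eval_rename] at h4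
          exact h4
        · funext ⟨i, j, b⟩
          cases b
          · have := (hz i j).2
            simp only [eq_ratCast, Complex.ratCast_im] at this
            simp [this]
          · have := (hz i j).1
            simp only [eq_ratCast, Complex.ratCast_re] at this
            simp [this]
      · rintro ⟨_, ⟨x, hx, rfl⟩, rfl⟩
        refine ⟨⟨x, ⟨Fin.elim0, fun f hf => ?_⟩, fun i j => by simp⟩, trivial⟩
        obtain ⟨g, hg, rfl⟩ := Finset.mem_map.1 hf
        change eval (Sum.elim x Fin.elim0) (rename Sum.inl g) = 0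
        rw [eval_rename]
        exact hx g hg
    rw [h3]
  tfae_finish

end Pool.Agent.Results.MP_42de19_nt.QuarticsSuffice
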