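import Pool.Agent.TH729.SQ.Tri
import Pool.Agent.TH729.BQ.R6

/-!
# The semialgebraic form of Mazur's conjecture for triquadratic surfaces (K3 surfaces in
`P¹ × P¹ × P¹`)

`F` is a form of tridegree `(2,2,2)` over a number field `K`, in the variables
`X (0,0), X (0,1); X (1,0), X (1,1); X (2,0), X (2,1)`, such that the surface `F = 0` in
`P¹ × P¹ × P¹` has only finitely many singular points and contains no fibre of the three
projections to `P¹ × P¹`.  If it is smooth it is a K3 surface; the smooth surfaces of this kind
contain no fibre of a projection for a general `F`.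

* For every embedding `K → ℝ` the closure of the set of all `K`-rational points of the affine
  surface `F(x₀,1,x₁,1,x₂,1) = 0` is semialgebraic over `ℚ` (the other seven charts of
  `P¹ × P¹ × P¹` are obtained by exchanging homogeneous coordinates of the three factors, which
  preserves the hypotheses on `F`).
* The strong form: there is a finite set `T` of rational points such that a point of the closure at
  which the real surface is smooth belongs to `T`, or its whole connected component in the set of
  the smooth real points of the affine surface is contained in the closure.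
* For `K = ℚ`, the closure of the set of the values of arbitrary rational functions at the rational
  points of products of such surfaces, of hypersurfaces of degree at most three, of intersections
  of two quadrics, and of affine spaces is semialgebraic over `ℚ`.

The `K`-rational points are all taken into account, not only the nondegenerate ones: after solving
for the first variable the surface becomes a double cover `w² = D(y, z)` with `D` of degree at most
four in `y` and in `z`, and the known theorem for such double covers needs points at which a certain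
difference of points has infinite order on an elliptic curve; this is not assumed here.
-/

set_option autoImplicit false

namespace Pool.Agent.Results.MP_42de19_nt.TriquadraticSurfaces

open MvPolynomial Pool.Agent.W279.Tri Pool.Agent.W279.TriR Pool.Agent.TH729.SQ

/-- Semialgebraic sets defined over `ℚ`: the finite unions of sets
`{p = 0, q₁ > 0, …, q_k > 0}`, where `p` and the `qᵢ` are polynomials with rational
coefficients. -/
def Semialgebraic {n : ℕ} (S : Set (Fin n → ℝ)) : Prop :=
  ∃ (m : ℕ) (P : Fin m → MvPolynomial (Fin n) ℚ) (G : Fin m → Finset (MvPolynomial (Fin n) ℚ)),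
    S = {x : Fin n → ℝ | ∃ j : Fin m, (aeval x (P j) : ℝ) = 0 ∧
      ∀ g ∈ G j, (0 : ℝ) < aeval x g}

/-- The hypotheses on the form `F`. -/
structure Admissible {K : Type} [Field K] (F : MvPolynomial (Fin 3 × Fin 2) K) : Prop where
  /-- `F` has the tridegree `(2,2,2)` -/
  tridegree : ∀ m ∈ F.support, ∀ i : Fin 3, m (i, 0) + m (i, 1) = 2
  /-- no fibre of the projections to two of the factors lies on the surface -/
  noFibre : ∀ (i : Fin 3) (p : Fin 3 → Fin 2 → AlgebraicClosure K), (∀ j, p j ≠ 0) →
    ∃ w : Fin 2 → AlgebraicClosure K,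
      aeval (fun q : Fin 3 × Fin 2 => Function.update p i w q.1 q.2) F ≠ 0
  /-- the surface has only finitely many singular points -/
  isolated : ∃ S : Set (Fin 3 → Fin 2 → AlgebraicClosure K), S.Finite ∧
    ∀ p : Fin 3 → Fin 2 → AlgebraicClosure K, (∀ i, p i ≠ 0) →
      (∀ q : Fin 3 × Fin 2, aeval (fun r : Fin 3 × Fin 2 => p r.1 r.2) (pderiv q F) = 0) →
      ∃ s ∈ S, ∀ i, ∃ t : AlgebraicClosure K, p i = t • s i

/-- The point `((x₀ : 1), (x₁ : 1), (x₂ : 1))`. -/
def chart {R : Type} [One R] (x : Fin 3 → R) : Fin 3 × Fin 2 → R :=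
  fun q => if q.2 = 0 then x q.1 else 1

/-- The rational points of the affine surface `F(x₀,1,x₁,1,x₂,1) = 0`. -/
def points {K : Type} [Field K] (F : MvPolynomial (Fin 3 × Fin 2) K) : Set (Fin 3 → K) :=
  {x | eval (chart x) F = 0}

/-- The smooth real points of the affine surface `F(x₀,1,x₁,1,x₂,1) = 0`: some partial derivative
of the form `F` does not vanish there. -/
def smoothPoints {K : Type} [Field K] (F : MvPolynomial (Fin 3 × Fin 2) K) (σ : K →+* ℝ) :
    Set (Fin 3 → ℝ) :=
  {x | eval₂ σ (chart x) F = 0 ∧ ∃ q : Fin 3 × Fin 2, eval₂ σ (chart x) (pderiv q F) ≠ 0}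

/-- A block: the set of the rational points of an admissible triquadratic surface in three of the
variables, or the set of the common zeros of two polynomials of degree at most two, or of the zeros
of one polynomial of degree at most three. -/
def Block {N : ℕ} (S : Set (Fin N → ℚ)) : Prop :=
  (∃ (e : Fin 3 → Fin N) (F : MvPolynomial (Fin 3 × Fin 2) ℚ), Function.Injective e ∧
    Admissible F ∧ S = {y | (fun i => y (e i)) ∈ points F}) ∨
  ∃ f g : MvPolynomial (Fin N) ℚ,
    ((f.totalDegree ≤ 2 ∧ g.totalDegree ≤ 2) ∨ (f.totalDegree ≤ 3 ∧ g = 0)) ∧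
      S = {y | eval y f = 0 ∧ eval y g = 0}

theorem result :
    -- the closure of the rational points of the surface, and the strong form
    (∀ (K : Type) [Field K] [NumberField K] (F : MvPolynomial (Fin 3 × Fin 2) K),
      Admissible F →
      ∃ T : Set (Fin 3 → K), T.Finite ∧ T ⊆ points F ∧
        ∀ σ : K →+* ℝ,
          Semialgebraic (closure ((fun (r : Fin 3 → K) i => σ (r i)) '' points F)) ∧
          ∀ x ∈ closure ((fun (r : Fin 3 → K) i => σ (r i)) '' points F), x ∈ smoothPoints F σ →
            (∃ r ∈ T, x = fun i => σ (r i)) ∨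
            connectedComponentIn (smoothPoints F σ) x ⊆
              closure ((fun (r : Fin 3 → K) i => σ (r i)) '' points F)) ∧
    -- the closure of the values of rational functions at the rational points of products of
    -- blocks and of affine spaces
    (∀ (ι κ : Type) [Finite ι] [Finite κ] (N : ℕ) (S : ι → Set (Fin N → ℚ)),
      (∀ j, Block (S j)) →
      ∀ (m : ℕ) (p : Fin m → MvPolynomial ((ι × Fin N) ⊕ κ) ℚ)
        (q : MvPolynomial ((ι × Fin N) ⊕ κ) ℚ),
        Semialgebraic (closure {y : Fin m → ℝ | ∃ (x : ι → Fin N → ℚ) (u : κ → ℚ),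
          (∀ j, x j ∈ S j) ∧
          eval (Sum.elim (fun r => x r.1 r.2) u) q ≠ 0 ∧
          ∀ k, y k = ((eval (Sum.elim (fun r => x r.1 r.2) u) (p k) /
            eval (Sum.elim (fun r => x r.1 r.2) u) q : ℚ) : ℝ)})) := by
  have haf : ∀ {R : Type} [Field R] (x : Fin 3 → R),
      chart x = fun q => af x q.1 q.2 := by
    intro R _ x
    funext ⟨i, a⟩
    fin_cases a <;> simp [af, chart]
  have h1 : ∀ (K : Type) [Field K] [NumberField K] (F : MvPolynomial (Fin 3 × Fin 2) K),
      Admissible F →
      ∃ T : Set (Fin 3 → K), T.Finite ∧ T ⊆ points F ∧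
        ∀ σ : K →+* ℝ,
          Pool.Agent.H581R2.SA (closure ((fun (r : Fin 3 → K) i => σ (r i)) '' points F)) ∧
          ∀ x ∈ closure ((fun (r : Fin 3 → K) i => σ (r i)) '' points F), x ∈ smoothPoints F σ →
            (∃ r ∈ T, x = fun i => σ (r i)) ∨
            connectedComponentIn (smoothPoints F σ) x ⊆
              closure ((fun (r : Fin 3 → K) i => σ (r i)) '' points F) := by
    intro K _ _ F hF
    have hF' := hF
    obtain ⟨c, hc⟩ := exists_form hF.tridegree
    subst hc
    obtain ⟨T, hT, hT1, hT2⟩ := tri_main (nice_of hF'.noFibre hF'.isolated)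
    have hpt : ∀ r : Fin 3 → K, r ∈ points (form c) ↔ E c (af r 0) (af r 1) (af r 2) = 0 := by
      intro r
      change eval (chart r) (form c) = 0 ↔ _
      rw [haf, eval_form]
    refine ⟨T, hT, fun r hr => (hpt r).2 (hT1 r hr), fun σ => ?_⟩
    have hreal : (fun (r : Fin 3 → K) i => σ (r i)) '' points (form c) = VK c σ := by
      ext x
      constructor
      · rintro ⟨r, hr, rfl⟩
        exact ⟨r, (hpt r).1 hr, rfl⟩
      · rintro ⟨r, hr, rfl⟩
        exact ⟨r, (hpt r).2 hr, rfl⟩
    have hsm : smoothPoints (form c) σ = Vs (cr c σ) := by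
      ext x
      change (eval₂ σ (chart x) (form c) = 0 ∧ _) ↔ (_ ∧ _)
      rw [haf, eval₂_cr, singX_real]
      simp only [not_forall, ne_eq]
    rw [hreal, hsm]
    exact hT2 σ
  refine ⟨fun K _ _ F hF => ?_, fun ι κ _ _ N S hS m p q => ?_⟩
  · obtain ⟨T, hT, hT1, hT2⟩ := h1 K F hF
    exact ⟨T, hT, hT1, fun σ => ⟨SA.frozen (hT2 σ).1, (hT2 σ).2⟩⟩
  · refine SA.frozen (Pool.Agent.TH729.BQ.vals_SA (fun j => ?_) p q)
    rcases hS j with ⟨e, F, he, hF, hSj⟩ | ⟨f, g, hfg, hSj⟩
    · rw [hSj]
      obtain ⟨T, hT, hT1, hT2⟩ := h1 ℚ F hF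
      exact Pool.Agent.TH729.BQ.cyl_SA (Rat.castHom ℝ) (hT2 (Rat.castHom ℝ)).1 he
    · rw [hSj]
      exact Pool.Agent.TH729.CC.block_SA ℚ (Rat.castHom ℝ) N f g hfg

end Pool.Agent.Results.MP_42de19_nt.TriquadraticSurfaces
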